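import Mathlib

/-!
# Möbius sums in short intervals: proportions, shifts and splitting
-/

set_option autoImplicit false

namespace Pool.Agent.H127.GL

open MeasureTheory Filter Topology Set

/-- the sum of `μ(n)` over `|n - x| < H / 2` -/
noncomputable def M (x H : ℝ) : ℝ :=
  ∑ n ∈ (Finset.range (⌊x + H⌋₊ + 1)).filter (fun n : ℕ => |(n : ℝ) - x| < H / 2),
    ((ArithmeticFunction.moebius n : ℤ) : ℝ)

/-- the proportion of the `x ∈ [X, 2X]` with the property `A` -/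
noncomputable def P (X : ℝ) (A : ℝ → Prop) : ℝ :=
  (volume {x : ℝ | x ∈ Icc X (2 * X) ∧ A x}).toReal / X

theorem vol_ne_top (X : ℝ) (A : ℝ → Prop) : volume {x : ℝ | x ∈ Icc X (2 * X) ∧ A x} ≠ ⊤ := by
  have h : volume {x : ℝ | x ∈ Icc X (2 * X) ∧ A x} ≤ volume (Icc X (2 * X)) :=
    measure_mono fun x hx => hx.1
  exact ne_top_of_le_ne_top (by simp) h

theorem P_mono {X : ℝ} (hX : 0 < X) {A B : ℝ → Prop} (h : ∀ x, x ∈ Icc X (2 * X) → A x → B x) :
    P X A ≤ P X B := by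
  unfold P
  apply div_le_div_of_nonneg_right _ hX.le
  apply ENNReal.toReal_mono (vol_ne_top X B)
  exact measure_mono fun x hx => ⟨hx.1, h x hx.1 hx.2⟩

theorem P_nonneg {X : ℝ} (hX : 0 < X) (A : ℝ → Prop) : 0 ≤ P X A := by
  unfold P; positivity

theorem P_false {X : ℝ} {A : ℝ → Prop} (h : ∀ x, x ∈ Icc X (2 * X) → ¬ A x) : P X A = 0 := by
  unfold P
  have : {x : ℝ | x ∈ Icc X (2 * X) ∧ A x} = ∅ := by
    ext x; simp only [mem_empty_iff_false, iff_false]; rintro ⟨h1, h2⟩; exact h x h1 h2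
  rw [this]; simp

theorem P_or {X : ℝ} (hX : 0 < X) (A B : ℝ → Prop) : P X (fun x => A x ∨ B x) ≤ P X A + P X B := by
  unfold P
  rw [← add_div]
  apply div_le_div_of_nonneg_right _ hX.le
  rw [← ENNReal.toReal_add (vol_ne_top X A) (vol_ne_top X B)]
  apply ENNReal.toReal_mono (ENNReal.add_ne_top.2 ⟨vol_ne_top X A, vol_ne_top X B⟩)
  refine le_trans (measure_mono ?_) (measure_union_le _ _)
  rintro x ⟨hx, h | h⟩
  · exact Or.inl ⟨hx, h⟩
  · exact Or.inr ⟨hx, h⟩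

theorem P_shift {X : ℝ} (hX : 0 < X) (A : ℝ → Prop) (s : ℝ) :
    P X (fun x => A (x + s)) ≤ P X A + |s| / X := by
  unfold P
  rw [← add_div]
  apply div_le_div_of_nonneg_right _ hX.le
  have h1 : {x : ℝ | x ∈ Icc X (2 * X) ∧ A (x + s)} ⊆
      ((fun x => x + s) ⁻¹' {x : ℝ | x ∈ Icc X (2 * X) ∧ A x}) ∪
        (if 0 ≤ s then Ioc (2 * X - s) (2 * X) else Ico X (X - s)) := by
    rintro x ⟨hx, h⟩
    by_cases hm : x + s ∈ Icc X (2 * X)
    · exact Or.inl ⟨hm, h⟩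
    · right
      rw [mem_Icc] at hx
      rw [mem_Icc, not_and_or, not_le, not_le] at hm
      split_ifs with hs
      · rcases hm with hm | hm
        · linarith [hx.1]
        · exact ⟨by linarith, hx.2⟩
      · rw [not_le] at hs
        rcases hm with hm | hm
        · exact ⟨hx.1, by linarith⟩
        · linarith [hx.2]
  have h2 : volume (if 0 ≤ s then Ioc (2 * X - s) (2 * X) else Ico X (X - s)) = ENNReal.ofReal |s| := by
    split_ifs with hs
    · rw [Real.volume_Ioc, abs_of_nonneg hs]; congr 1; ring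
    · rw [Real.volume_Ico, abs_of_neg (not_le.1 hs)]; congr 1; ring
  have h3 : volume {x : ℝ | x ∈ Icc X (2 * X) ∧ A (x + s)} ≤
      volume {x : ℝ | x ∈ Icc X (2 * X) ∧ A x} + ENNReal.ofReal |s| := by
    refine le_trans (measure_mono h1) (le_trans (measure_union_le _ _) ?_)
    rw [measure_preimage_add_right, h2]
  refine le_trans (ENNReal.toReal_mono ?_ h3) ?_
  · exact ENNReal.add_ne_top.2 ⟨vol_ne_top X A, ENNReal.ofReal_ne_top⟩
  · rw [ENNReal.toReal_add (vol_ne_top X A) ENNReal.ofReal_ne_top, ENNReal.toReal_ofReal (abs_nonneg s)]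

/-- `M` as a sum over any long range -/
theorem M_eq {x H : ℝ} (hH : 0 ≤ H) {N : ℕ} (hN : ⌊x + H⌋₊ + 1 ≤ N) :
    M x H = ∑ n ∈ Finset.range N,
      if |(n : ℝ) - x| < H / 2 then ((ArithmeticFunction.moebius n : ℤ) : ℝ) else 0 := by
  unfold M
  rw [Finset.sum_filter]
  apply Finset.sum_subset
  · intro n hn
    rw [Finset.mem_range] at hn ⊢
    omega
  · intro n _ hn
    rw [Finset.mem_range, not_lt] at hn
    rw [if_neg]
    intro h
    have h1 : (n : ℝ) < x + H / 2 := by linarith [(abs_lt.1 h).2]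
    have h2 : n ≤ ⌊x + H⌋₊ := Nat.le_floor (by linarith)
    omega

theorem abs_mu_le (n : ℕ) : |((ArithmeticFunction.moebius n : ℤ) : ℝ)| ≤ 1 := by
  have h := ArithmeticFunction.abs_moebius_le_one (n := n)
  exact_mod_cast h

theorem M_abs {x H : ℝ} (hH : 0 ≤ H) : |M x H| ≤ H + 1 := by
  unfold M
  refine le_trans (Finset.abs_sum_le_sum_abs _ _) ?_
  refine le_trans (Finset.sum_le_sum fun n _ => abs_mu_le n) ?_
  rw [Finset.sum_const, nsmul_eq_mul, mul_one]
  have h1 : ((Finset.range (⌊x + H⌋₊ + 1)).filter (fun n : ℕ => |(n : ℝ) - x| < H / 2)).card ≤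
      (Finset.Ioo ⌊x - H / 2⌋ ⌈x + H / 2⌉).card := by
    apply Finset.card_le_card_of_injOn (fun n : ℕ => (n : ℤ))
    · intro n hn
      have hn' := (Finset.mem_filter.1 hn).2
      rw [abs_lt] at hn'
      simp only [Finset.coe_Ioo, mem_Ioo]
      constructor
      · rw [Int.floor_lt]; push_cast; linarith [hn'.1]
      · rw [Int.lt_ceil]; push_cast; linarith [hn'.2]
    · intro a _ b _ hab
      exact Nat.cast_injective (R := ℤ) hab
  have h2 : ((Finset.Ioo ⌊x - H / 2⌋ ⌈x + H / 2⌉).card : ℝ) ≤ H + 1 := by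
    rw [Int.card_Ioo]
    have h3 : (⌈x + H / 2⌉ : ℝ) < x + H / 2 + 1 := Int.ceil_lt_add_one _
    have h4 : x - H / 2 - 1 < (⌊x - H / 2⌋ : ℝ) := Int.sub_one_lt_floor _
    rcases le_or_gt 0 (⌈x + H / 2⌉ - ⌊x - H / 2⌋ - 1) with h | h
    · have h5 : (((⌈x + H / 2⌉ - ⌊x - H / 2⌋ - 1).toNat : ℕ) : ℝ) =
          ((⌈x + H / 2⌉ - ⌊x - H / 2⌋ - 1 : ℤ) : ℝ) := by
        exact_mod_cast congrArg (fun z : ℤ => (z : ℝ)) (Int.toNat_of_nonneg h)
      rw [h5]; push_cast; linarith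
    · rw [Int.toNat_of_nonpos h.le]; push_cast; linarith
  exact le_trans (by exact_mod_cast h1) h2

theorem M_split {x h₁ h₂ : ℝ} (hh₁ : 0 ≤ h₁) (hh₂ : 0 ≤ h₂) :
    |M x (h₁ + h₂) - M (x - h₂ / 2) h₁ - M (x + h₁ / 2) h₂| ≤ 1 := by
  set N : ℕ := (⌊x + (h₁ + h₂)⌋₊ + 1) + (⌊x - h₂ / 2 + h₁⌋₊ + 1) + (⌊x + h₁ / 2 + h₂⌋₊ + 1) with hN
  rw [M_eq (N := N) (by linarith) (by omega), M_eq (N := N) hh₁ (by omega),
    M_eq (N := N) hh₂ (by omega), ← Finset.sum_sub_distrib, ← Finset.sum_sub_distrib]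
  refine le_trans (Finset.abs_sum_le_sum_abs _ _) ?_
  have key : ∀ n ∈ Finset.range N,
      |(if |(n : ℝ) - x| < (h₁ + h₂) / 2 then ((ArithmeticFunction.moebius n : ℤ) : ℝ) else 0) -
        (if |(n : ℝ) - (x - h₂ / 2)| < h₁ / 2 then ((ArithmeticFunction.moebius n : ℤ) : ℝ) else 0) -
        (if |(n : ℝ) - (x + h₁ / 2)| < h₂ / 2 then ((ArithmeticFunction.moebius n : ℤ) : ℝ) else 0)| ≤
      if (n : ℝ) = x - (h₁ + h₂) / 2 + h₁ then (1 : ℝ) else 0 := by
    intro n _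
    have hmu := abs_mu_le n
    simp only [abs_lt]
    by_cases hc : (n : ℝ) = x - (h₁ + h₂) / 2 + h₁
    · rw [if_pos hc]
      have e2 : ¬ (-(h₁ / 2) < (n : ℝ) - (x - h₂ / 2) ∧ (n : ℝ) - (x - h₂ / 2) < h₁ / 2) := by
        rintro ⟨_, h⟩; linarith
      have e3 : ¬ (-(h₂ / 2) < (n : ℝ) - (x + h₁ / 2) ∧ (n : ℝ) - (x + h₁ / 2) < h₂ / 2) := by
        rintro ⟨h, _⟩; linarith
      rw [if_neg e2, if_neg e3]
      split_ifs
      · simpa using hmu
      · simp
    · rw [if_neg hc]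
      rcases lt_or_gt_of_ne hc with h | h
      · have e3 : ¬ (-(h₂ / 2) < (n : ℝ) - (x + h₁ / 2) ∧ (n : ℝ) - (x + h₁ / 2) < h₂ / 2) := by
          rintro ⟨h', _⟩; linarith
        have e12 : (-((h₁ + h₂) / 2) < (n : ℝ) - x ∧ (n : ℝ) - x < (h₁ + h₂) / 2) ↔
            (-(h₁ / 2) < (n : ℝ) - (x - h₂ / 2) ∧ (n : ℝ) - (x - h₂ / 2) < h₁ / 2) := by
          constructor
          · rintro ⟨a, b⟩; exact ⟨by linarith, by linarith⟩
          · rintro ⟨a, b⟩; exact ⟨by linarith, by linarith⟩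
        rw [if_neg e3]
        by_cases h12 : (-((h₁ + h₂) / 2) < (n : ℝ) - x ∧ (n : ℝ) - x < (h₁ + h₂) / 2)
        · rw [if_pos h12, if_pos (e12.1 h12)]; simp
        · rw [if_neg h12, if_neg (fun h' => h12 (e12.2 h'))]; simp
      · have e2 : ¬ (-(h₁ / 2) < (n : ℝ) - (x - h₂ / 2) ∧ (n : ℝ) - (x - h₂ / 2) < h₁ / 2) := by
          rintro ⟨_, h'⟩; linarith
        have e13 : (-((h₁ + h₂) / 2) < (n : ℝ) - x ∧ (n : ℝ) - x < (h₁ + h₂) / 2) ↔
            (-(h₂ / 2) < (n : ℝ) - (x + h₁ / 2) ∧ (n : ℝ) - (x + h₁ / 2) < h₂ / 2) := by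
          constructor
          · rintro ⟨a, b⟩; exact ⟨by linarith, by linarith⟩
          · rintro ⟨a, b⟩; exact ⟨by linarith, by linarith⟩
        rw [if_neg e2]
        by_cases h13 : (-((h₁ + h₂) / 2) < (n : ℝ) - x ∧ (n : ℝ) - x < (h₁ + h₂) / 2)
        · rw [if_pos h13, if_pos (e13.1 h13)]; simp
        · rw [if_neg h13, if_neg (fun h' => h13 (e13.2 h'))]; simp
  refine le_trans (Finset.sum_le_sum key) ?_
  rw [← Finset.sum_filter, Finset.sum_const, nsmul_eq_mul, mul_one]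
  have : ((Finset.range N).filter fun n : ℕ => (n : ℝ) = x - (h₁ + h₂) / 2 + h₁).card ≤ 1 := by
    rw [Finset.card_le_one]
    intro a ha b hb
    have h1 := (Finset.mem_filter.1 ha).2
    have h2 := (Finset.mem_filter.1 hb).2
    exact_mod_cast h1.trans h2.symm
  exact_mod_cast this

/-- measurability of the sums on `[X, 2X]` -/
theorem meas_set {X H v : ℝ} (hH : 0 ≤ H) : MeasurableSet {x : ℝ | x ∈ Icc X (2 * X) ∧ M x H ≤ v} := by
  set N : ℕ := ⌊2 * X + H⌋₊ + 1 with hN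
  have h1 : {x : ℝ | x ∈ Icc X (2 * X) ∧ M x H ≤ v} = Icc X (2 * X) ∩
      {x : ℝ | (∑ n ∈ Finset.range N,
        if |(n : ℝ) - x| < H / 2 then ((ArithmeticFunction.moebius n : ℤ) : ℝ) else 0) ≤ v} := by
    ext x
    refine and_congr_right fun hx => ?_
    show M x H ≤ v ↔ (∑ n ∈ Finset.range N,
        if |(n : ℝ) - x| < H / 2 then ((ArithmeticFunction.moebius n : ℤ) : ℝ) else 0) ≤ v
    rw [M_eq (N := N) hH]
    have : ⌊x + H⌋₊ ≤ ⌊2 * X + H⌋₊ := Nat.floor_mono (by linarith [hx.2])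
    omega
  rw [h1]
  apply measurableSet_Icc.inter
  apply measurableSet_le _ measurable_const
  apply Finset.measurable_sum
  intro n _
  apply Measurable.ite _ measurable_const measurable_const
  exact measurableSet_lt ((measurable_const.sub measurable_id).abs) measurable_const

theorem P_compl {X H v : ℝ} (hX : 0 < X) (hH : 0 ≤ H) :
    P X (fun x => v < M x H) ≤ 1 - P X (fun x => M x H ≤ v) := by
  have hm := meas_set (X := X) (v := v) hH
  have h1 : P X (fun x => M x H ≤ v) + P X (fun x => v < M x H) ≤ 1 := by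
    unfold P
    rw [← add_div, div_le_one hX]
    rw [← ENNReal.toReal_add (vol_ne_top X _) (vol_ne_top X _)]
    have hd : Disjoint {x : ℝ | x ∈ Icc X (2 * X) ∧ M x H ≤ v} {x : ℝ | x ∈ Icc X (2 * X) ∧ v < M x H} := by
      rw [Set.disjoint_left]
      rintro x ⟨_, h⟩ ⟨_, h'⟩
      exact absurd h' (not_lt.2 h)
    rw [← measure_union' hd hm]
    have h2 : volume ({x : ℝ | x ∈ Icc X (2 * X) ∧ M x H ≤ v} ∪ {x : ℝ | x ∈ Icc X (2 * X) ∧ v < M x H}) ≤
        volume (Icc X (2 * X)) := by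
      apply measure_mono
      rintro x (h | h)
      · exact h.1
      · exact h.1
    refine le_trans (ENNReal.toReal_mono (by simp) h2) ?_
    rw [Real.volume_Icc, ENNReal.toReal_ofReal (by linarith)]
    linarith
  linarith

end Pool.Agent.H127.GL
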