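import Pool.Agent.H127.GL.Basic

/-!
# Splitting the windows: the law for `H = h + R` from the law for `h`
-/

set_option autoImplicit false

namespace Pool.Agent.H127.GL

open MeasureTheory Filter Topology Set

/-- `√ζ(2)` -/
noncomputable def k : ℝ := √(Real.pi ^ 2 / 6)

theorem k_pos : 0 < k := Real.sqrt_pos.2 (by positivity)

theorem k_le : k ≤ 2 := by
  unfold k
  rw [Real.sqrt_le_left (by norm_num)]
  have := Real.pi_lt_d2
  have := Real.pi_pos
  nlinarith

theorem one_le_k : 1 ≤ k := by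
  unfold k
  rw [Real.one_le_sqrt]
  have := Real.pi_gt_three
  nlinarith

/-- the proportion of `x ∈ [X, 2X]` with `M(x;H) / √(H/ζ(2)) ≤ t` -/
noncomputable def share (X H t : ℝ) : ℝ := P X (fun x => M x H / √(H / (Real.pi ^ 2 / 6)) ≤ t)

/-- the law `Φ` for the lengths `h X` -/
def LawF (Φ : ℝ → ℝ) (h : ℝ → ℝ) : Prop := ∀ t : ℝ, Tendsto (fun X => share X (h X) t) atTop (𝓝 (Φ t))

theorem share_eq {X H t : ℝ} (hH : 0 < H) : share X H t = P X (fun x => M x H ≤ t * (√H / k)) := by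
  unfold share
  have e : √(H / (Real.pi ^ 2 / 6)) = √H / k := by
    rw [Real.sqrt_div hH.le]; rfl
  have hp : 0 < √H / k := div_pos (Real.sqrt_pos.2 hH) k_pos
  rw [e]
  congr 1
  funext x
  rw [div_le_iff₀ hp]

/-- tails -/
theorem tail {Φ : ℝ → ℝ} (hb : Tendsto Φ atBot (𝓝 0)) (ht : Tendsto Φ atTop (𝓝 1)) {e : ℝ} (he : 0 < e) :
    ∃ u : ℝ, 0 < u ∧ ∀ h : ℝ → ℝ, LawF Φ h → (∀ᶠ X in atTop, 0 < h X) →
      ∀ᶠ X in atTop, P X (fun x => u * (√(h X) / k) < |M x (h X)|) ≤ e := by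
  have h1 : ∀ᶠ u in atTop, Φ (-u) < e / 4 :=
    (hb.comp tendsto_neg_atTop_atBot).eventually (gt_mem_nhds (by linarith : (0 : ℝ) < e / 4))
  have h2 : ∀ᶠ u in atTop, 1 - e / 4 < Φ u := ht.eventually (lt_mem_nhds (by linarith))
  obtain ⟨u, hu1, hu2, hu0⟩ := (h1.and (h2.and (eventually_gt_atTop 0))).exists
  refine ⟨u, hu0, fun h hh hpos => ?_⟩
  have a1 := (hh (-u)).eventually (gt_mem_nhds hu1)
  have a2 := (hh u).eventually (lt_mem_nhds hu2)
  filter_upwards [a1, a2, hpos, eventually_gt_atTop 0] with X b1 b2 b3 hX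
  rw [share_eq b3] at b1 b2
  have c1 : P X (fun x => u * (√(h X) / k) < |M x (h X)|) ≤
      P X (fun x => M x (h X) ≤ -u * (√(h X) / k)) + P X (fun x => u * (√(h X) / k) < M x (h X)) := by
    refine le_trans (P_mono hX ?_) (P_or hX _ _)
    intro x _ hx
    rcases lt_abs.1 hx with h' | h'
    · exact Or.inr h'
    · left; linarith
  have c2 := P_compl (v := u * (√(h X) / k)) hX b3.le
  linarith

/-- `|M(x;R)| > e √H` only for a proportion at most `e` -/
def Small (H R : ℝ → ℝ) (e : ℝ) : Prop :=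
  ∀ᶠ X in atTop, P X (fun x => e * √(H X) < |M x (R X)|) ≤ e

theorem small_of_law {Φ : ℝ → ℝ} (hb : Tendsto Φ atBot (𝓝 0)) (ht : Tendsto Φ atTop (𝓝 1))
    {e : ℝ} (he : 0 < e) : ∃ δ : ℝ, 0 < δ ∧ ∀ H h : ℝ → ℝ, LawF Φ h →
      (∀ᶠ X in atTop, 0 < h X ∧ h X ≤ δ * H X) → Small H h e := by
  obtain ⟨u, hu, hU⟩ := tail hb ht he
  refine ⟨e ^ 2 / u ^ 2, by positivity, fun H h hh hle => ?_⟩
  have := hU h hh (hle.mono fun X hX => hX.1)
  unfold Small
  filter_upwards [this, hle, eventually_gt_atTop 0] with X h1 h2 hX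
  refine le_trans (P_mono hX ?_) h1
  intro x _ hx
  refine lt_of_le_of_lt ?_ hx
  have h3 : u * √(h X) ≤ e * √(H X) := by
    have h4 : √(u ^ 2 * h X) ≤ √(e ^ 2 * H X) := by
      apply Real.sqrt_le_sqrt
      have := h2.2
      rw [div_mul_eq_mul_div, le_div_iff₀ (by positivity)] at this
      linarith
    rw [Real.sqrt_mul (by positivity), Real.sqrt_mul (by positivity), Real.sqrt_sq hu.le,
      Real.sqrt_sq he.le] at h4
    exact h4
  have h5 : √(h X) / k ≤ √(h X) := div_le_self (Real.sqrt_nonneg _) one_le_k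
  nlinarith [Real.sqrt_nonneg (h X)]

/-- short windows are negligible -/
theorem small_of_short {H R : ℝ → ℝ} {e : ℝ} (he : 0 < e)
    (h : ∀ᶠ X in atTop, 0 ≤ R X ∧ R X + 1 ≤ e * √(H X)) : Small H R e := by
  unfold Small
  filter_upwards [h, eventually_gt_atTop 0] with X h1 hX
  rw [P_false]
  · exact he.le
  · intro x _ hx
    have := M_abs (x := x) h1.1
    linarith [h1.2]

/-- sums of negligible windows -/
theorem small_add {H R₁ R₂ : ℝ → ℝ} {e : ℝ} (h1 : Small H R₁ (e / 4)) (h2 : Small H R₂ (e / 4))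
    (hR : ∀ᶠ X in atTop, 0 ≤ R₁ X ∧ 0 ≤ R₂ X ∧ R₁ X + R₂ X ≤ e / 2 * X ∧ 4 ≤ e * √(H X)) :
    Small H (fun X => R₁ X + R₂ X) e := by
  unfold Small at *
  filter_upwards [h1, h2, hR, eventually_gt_atTop 0] with X a1 a2 a3 hX
  obtain ⟨b1, b2, b3, b4⟩ := a3
  have c1 : P X (fun x => e * √(H X) < |M x (R₁ X + R₂ X)|) ≤
      P X (fun x => e / 4 * √(H X) < |M (x + -(R₂ X / 2)) (R₁ X)|) +
      P X (fun x => e / 4 * √(H X) < |M (x + R₁ X / 2) (R₂ X)|) := by
    refine le_trans (P_mono hX ?_) (P_or hX _ _)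
    intro x _ hx
    by_contra hc
    rw [not_or, not_lt, not_lt] at hc
    have hs := M_split (x := x) b1 b2
    rw [← sub_eq_add_neg] at hc
    have t1 : |M x (R₁ X + R₂ X)| ≤ |M x (R₁ X + R₂ X) - M (x - R₂ X / 2) (R₁ X) - M (x + R₁ X / 2) (R₂ X)| +
        |M (x - R₂ X / 2) (R₁ X)| + |M (x + R₁ X / 2) (R₂ X)| := by
      have e1 : M x (R₁ X + R₂ X) = (M x (R₁ X + R₂ X) - M (x - R₂ X / 2) (R₁ X) - M (x + R₁ X / 2) (R₂ X)) +
        M (x - R₂ X / 2) (R₁ X) + M (x + R₁ X / 2) (R₂ X) := by ring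
      conv_lhs => rw [e1]
      exact abs_add_three _ _ _
    linarith [hc.1, hc.2]
  have c2 := P_shift hX (fun x => e / 4 * √(H X) < |M x (R₁ X)|) (-(R₂ X / 2))
  have c3 := P_shift hX (fun x => e / 4 * √(H X) < |M x (R₂ X)|) (R₁ X / 2)
  have c4 : |-(R₂ X / 2)| / X + |R₁ X / 2| / X ≤ e / 2 := by
    rw [abs_neg, abs_of_nonneg (by linarith), abs_of_nonneg (by linarith), ← add_div, div_le_iff₀ hX]
    linarith
  linarith

theorem alg_up {t s e q r : ℝ} (hs : 0 < s) (he : 0 < e) (he3 : e * (4 + |t| + s) ≤ s) (hq : 0 < q)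
    (r1 : r ≤ q) (r2 : (1 - e) * q ≤ r) : t * (q / k) + 2 * (e * q) ≤ (t + s) * (r / k) := by
  have hk := k_pos
  have hk2 := k_le
  have hsq := hq
  by_contra hcon
  rw [not_le] at hcon
  have u5 : (t + s) * r < t * q + 2 * k * (e * q) := by
    have := mul_lt_mul_of_pos_right hcon hk
    have e1 : (t + s) * (r / k) * k = (t + s) * r := by field_simp
    have e2 : (t * (q / k) + 2 * (e * q)) * k = t * q + 2 * k * (e * q) := by
      field_simp
    rw [e1, e2] at this
    exact this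
  have heq : 0 < e * q := mul_pos he hq
  have u6 : (t + s) * q - |t + s| * (e * q) ≤ (t + s) * r := by
    rcases le_or_gt 0 (t + s) with hts | hts
    · rw [abs_of_nonneg hts]
      have := mul_le_mul_of_nonneg_left r2 hts
      linarith
    · rw [abs_of_neg hts]
      have := mul_le_mul_of_nonpos_left r1 hts.le
      have := mul_pos (neg_pos.2 hts) heq
      linarith
  have u7 : |t + s| ≤ |t| + s := by
    refine le_trans (abs_add_le _ _) ?_
    rw [abs_of_pos hs]
  have u7' := mul_le_mul_of_nonneg_right u7 heq.le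
  have u8 : 2 * k * (e * q) ≤ 4 * (e * q) := by
    apply mul_le_mul_of_nonneg_right _ heq.le
    linarith
  have u9 : e * (4 + |t| + s) * q ≤ s * q := mul_le_mul_of_nonneg_right he3 hq.le
  linarith

theorem alg_low {t s e q r : ℝ} (hs : 0 < s) (he : 0 < e) (he3 : e * (4 + |t| + s) ≤ s) (hq : 0 < q)
    (r1 : r ≤ q) (r2 : (1 - e) * q ≤ r) : (t - s) * (r / k) + 2 * (e * q) ≤ t * (q / k) := by
  have h := alg_up (t := -t) hs he (by rwa [abs_neg]) hq r1 r2
  have e1 : (-t + s) * (r / k) = -((t - s) * (r / k)) := by ring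
  have e2 : -t * (q / k) = -(t * (q / k)) := by ring
  rw [e1, e2] at h
  linarith

/-- **The main step.** -/
theorem law_of_split {Φ : ℝ → ℝ} (hc : Continuous Φ) {H : ℝ → ℝ}
    (hinf : Tendsto H atTop atTop) (hX0 : Tendsto (fun X => H X / X) atTop (𝓝 0))
    (h : ∀ e : ℝ, 0 < e → ∃ h R : ℝ → ℝ, LawF Φ h ∧
      (∀ᶠ X in atTop, H X = h X + R X ∧ 0 ≤ R X ∧ R X ≤ e * H X) ∧ Small H R e) : LawF Φ H := by
  intro t
  rw [Metric.tendsto_nhds]
  intro ε hε
  obtain ⟨s, hs, hs1⟩ : ∃ s : ℝ, 0 < s ∧ ∀ y, |y - t| ≤ s → |Φ y - Φ t| < ε / 4 := by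
    obtain ⟨s, hs, h'⟩ := Metric.continuous_iff.1 hc t (ε / 4) (by linarith)
    refine ⟨s / 2, by linarith, fun y hy => ?_⟩
    have := h' y (by rw [Real.dist_eq]; linarith)
    rwa [Real.dist_eq] at this
  set e : ℝ := min (min (1 / 2) (ε / 8)) (s / (4 + |t| + s)) with he_def
  have hden : 0 < 4 + |t| + s := by positivity
  have he : 0 < e := by
    rw [he_def]; exact lt_min (lt_min (by norm_num) (by linarith)) (by positivity)
  have he1 : e ≤ 1 / 2 := le_trans (min_le_left _ _) (min_le_left _ _)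
  have he2 : e ≤ ε / 8 := le_trans (min_le_left _ _) (min_le_right _ _)
  have he3 : e * (4 + |t| + s) ≤ s := by
    have : e ≤ s / (4 + |t| + s) := min_le_right _ _
    rwa [le_div_iff₀ hden] at this
  obtain ⟨g, R, hg, hsum, hsm⟩ := h e he
  have a1 := (Metric.tendsto_nhds.1 (hg (t + s))) (ε / 4) (by linarith)
  have a2 := (Metric.tendsto_nhds.1 (hg (t - s))) (ε / 4) (by linarith)
  have a3 : ∀ᶠ X in atTop, H X / X < ε / 8 := hX0.eventually (gt_mem_nhds (by linarith))
  have a4 := hinf.eventually (eventually_ge_atTop (max 1 (1 / e ^ 2)))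
  unfold Small at hsm
  filter_upwards [a1, a2, a3, a4, hsum, hsm, eventually_gt_atTop 0] with X b1 b2 b3 b4 b5 b6 hX
  obtain ⟨c1, c2, c3⟩ := b5
  rw [Real.dist_eq] at b1 b2 ⊢
  have hH1 : 1 ≤ H X := le_trans (le_max_left _ _) b4
  have hHe : 1 / e ^ 2 ≤ H X := le_trans (le_max_right _ _) b4
  have hH : 0 < H X := by linarith
  have hgX : 0 < g X := by nlinarith
  have hgle : g X ≤ H X := by linarith
  have hsq : 0 < √(H X) := Real.sqrt_pos.2 hH
  have hone : 1 ≤ e * √(H X) := by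
    have h6 : 1 / e ≤ √(H X) := by
      apply Real.le_sqrt_of_sq_le
      rw [div_pow, one_pow]; exact hHe
    rw [div_le_iff₀ he] at h6
    linarith
  -- the ratio of the square roots
  have r1 : √(g X) ≤ √(H X) := Real.sqrt_le_sqrt hgle
  have r2 : (1 - e) * √(H X) ≤ √(g X) := by
    apply Real.le_sqrt_of_sq_le
    rw [mul_pow, Real.sq_sqrt hH.le]
    nlinarith [mul_pos he hH]
  have hk := k_pos
  have hk2 := k_le
  have hk1 := one_le_k
  rw [share_eq hgX] at b1 b2
  rw [share_eq hH]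
  set Q : ℝ := P X (fun x => e * √(H X) < |M x (R X)|) with hQ
  -- the shifted events
  have shiftR : P X (fun x => e * √(H X) < |M (x + g X / 2) (R X)|) ≤ e + g X / 2 / X := by
    have := P_shift hX (fun x => e * √(H X) < |M x (R X)|) (g X / 2)
    rw [abs_of_pos (by linarith : 0 < g X / 2)] at this
    linarith
  have hgX2 : g X / 2 / X + R X / 2 / X < ε / 8 := by
    have : g X / 2 / X + R X / 2 / X = H X / X / 2 := by rw [c1]; ring
    rw [this]
    have : 0 ≤ H X / X := by positivity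
    linarith
  -- upper bound
  have up : P X (fun x => M x (H X) ≤ t * (√(H X) / k)) ≤
      P X (fun x => M x (g X) ≤ (t + s) * (√(g X) / k)) + ε / 4 := by
    have d1 : P X (fun x => M x (H X) ≤ t * (√(H X) / k)) ≤
        P X (fun x => M (x + -(R X / 2)) (g X) ≤ (t + s) * (√(g X) / k)) +
        P X (fun x => e * √(H X) < |M (x + g X / 2) (R X)|) := by
      refine le_trans (P_mono hX ?_) (P_or hX _ _)
      intro x _ hx
      by_contra hcon
      rw [not_or, not_le, not_lt, ← sub_eq_add_neg] at hcon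
      have hs' := M_split (x := x) hgX.le c2
      rw [← c1] at hs'
      have u1 := (abs_le.1 hs').1
      have u1' := (abs_le.1 hs').2
      have u2 := (abs_le.1 hcon.2).1
      have u3 := hcon.1
      have u4 := alg_up (t := t) hs he he3 hsq r1 r2
      linarith
    have d2 := P_shift hX (fun x => M x (g X) ≤ (t + s) * (√(g X) / k)) (-(R X / 2))
    rw [abs_neg, abs_of_nonneg (by linarith : 0 ≤ R X / 2)] at d2
    linarith
  have low : P X (fun x => M x (g X) ≤ (t - s) * (√(g X) / k)) ≤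
      P X (fun x => M x (H X) ≤ t * (√(H X) / k)) + ε / 4 := by
    have d2 := P_shift hX (fun x => M (x + -(R X / 2)) (g X) ≤ (t - s) * (√(g X) / k)) (R X / 2)
    simp only [add_assoc, add_neg_cancel, add_zero] at d2
    rw [abs_of_nonneg (by linarith : 0 ≤ R X / 2)] at d2
    have d1 : P X (fun x => M (x + -(R X / 2)) (g X) ≤ (t - s) * (√(g X) / k)) ≤
        P X (fun x => M x (H X) ≤ t * (√(H X) / k)) +
        P X (fun x => e * √(H X) < |M (x + g X / 2) (R X)|) := by
      refine le_trans (P_mono hX ?_) (P_or hX _ _)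
      intro x _ hx
      by_contra hcon
      rw [not_or, not_le, not_lt] at hcon
      rw [← sub_eq_add_neg] at hx
      have hs' := M_split (x := x) hgX.le c2
      rw [← c1] at hs'
      have u1 := (abs_le.1 hs').2
      have u2 := (abs_le.1 hcon.2).2
      have u3 := hcon.1
      have u4 := alg_low (t := t) hs he he3 hsq r1 r2
      linarith
    linarith
  have f1 := hs1 (t + s) (by simp [abs_of_pos hs])
  have f2 := hs1 (t - s) (by simp [abs_of_pos hs])
  rw [abs_lt] at *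
  constructor <;> linarith [b1.1, b1.2, b2.1, b2.2, f1.1, f1.2, f2.1, f2.2]

end Pool.Agent.H127.GL
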