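import Pool.Agent.H127.GL.Reduce

/-!
# Failure of the law propagates to other lengths
-/

set_option autoImplicit false

namespace Pool.Agent.H127.GL

open MeasureTheory Filter Topology Set

theorem P_le_one {X : ℝ} (hX : 0 < X) (A : ℝ → Prop) : P X A ≤ 1 := by
  unfold P
  rw [div_le_one hX]
  have h : volume {x : ℝ | x ∈ Icc X (2 * X) ∧ A x} ≤ volume (Icc X (2 * X)) :=
    measure_mono fun x hx => hx.1
  refine le_trans (ENNReal.toReal_mono (by simp) h) ?_
  rw [Real.volume_Icc, ENNReal.toReal_ofReal (by linarith)]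
  linarith

theorem share_mono {X H t t' : ℝ} (hX : 0 < X) (h : t ≤ t') : share X H t ≤ share X H t' :=
  P_mono hX fun _ _ hx => le_trans hx h

/-- one step, pointwise -/
theorem step {X g R e s t : ℝ} (hX : 0 < X) (he : 0 < e) (he1 : e ≤ 1 / 2) (hs : 0 < s)
    (he3 : e * (4 + |t| + s) ≤ s) (hH : 0 < g + R) (hR : 0 ≤ R) (hRe : R ≤ e * (g + R))
    (hone : 1 ≤ e * √(g + R)) (hsm : P X (fun x => e * √(g + R) < |M x R|) ≤ e) :
    share X (g + R) t ≤ share X g (t + s) + (e + (g + R) / X) ∧
      share X g (t - s) ≤ share X (g + R) t + (e + (g + R) / X) := by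
  have hgX : 0 < g := by nlinarith
  have hgle : g ≤ g + R := by linarith
  have hsq : 0 < √(g + R) := Real.sqrt_pos.2 hH
  have r1 : √g ≤ √(g + R) := Real.sqrt_le_sqrt hgle
  have r2 : (1 - e) * √(g + R) ≤ √g := by
    apply Real.le_sqrt_of_sq_le
    rw [mul_pow, Real.sq_sqrt hH.le]
    nlinarith [mul_pos he hH]
  rw [share_eq hgX, share_eq hgX, share_eq hH]
  have shiftR : P X (fun x => e * √(g + R) < |M (x + g / 2) R|) ≤ e + g / 2 / X := by
    have := P_shift hX (fun x => e * √(g + R) < |M x R|) (g / 2)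
    rw [abs_of_pos (by linarith : 0 < g / 2)] at this
    linarith
  have hgX2 : g / 2 / X + R / 2 / X ≤ (g + R) / X := by
    have : g / 2 / X + R / 2 / X = (g + R) / X / 2 := by ring
    rw [this]
    have : 0 ≤ (g + R) / X := by positivity
    linarith
  constructor
  · have d1 : P X (fun x => M x (g + R) ≤ t * (√(g + R) / k)) ≤
        P X (fun x => M (x + -(R / 2)) g ≤ (t + s) * (√g / k)) +
        P X (fun x => e * √(g + R) < |M (x + g / 2) R|) := by
      refine le_trans (P_mono hX ?_) (P_or hX _ _)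
      intro x _ hx
      by_contra hcon
      rw [not_or, not_le, not_lt, ← sub_eq_add_neg] at hcon
      have hs' := M_split (x := x) hgX.le hR
      have u1 := (abs_le.1 hs').1
      have u1' := (abs_le.1 hs').2
      have u2 := (abs_le.1 hcon.2).1
      have u3 := hcon.1
      have u4 := alg_up (t := t) hs he he3 hsq r1 r2
      linarith
    have d2 := P_shift hX (fun x => M x g ≤ (t + s) * (√g / k)) (-(R / 2))
    rw [abs_neg, abs_of_nonneg (by linarith : 0 ≤ R / 2)] at d2
    linarith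
  · have d2 := P_shift hX (fun x => M (x + -(R / 2)) g ≤ (t - s) * (√g / k)) (R / 2)
    simp only [add_assoc, add_neg_cancel, add_zero] at d2
    rw [abs_of_nonneg (by linarith : 0 ≤ R / 2)] at d2
    have d1 : P X (fun x => M (x + -(R / 2)) g ≤ (t - s) * (√g / k)) ≤
        P X (fun x => M x (g + R) ≤ t * (√(g + R) / k)) +
        P X (fun x => e * √(g + R) < |M (x + g / 2) R|) := by
      refine le_trans (P_mono hX ?_) (P_or hX _ _)
      intro x _ hx
      by_contra hcon
      rw [not_or, not_le, not_lt] at hcon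
      rw [← sub_eq_add_neg] at hx
      have hs' := M_split (x := x) hgX.le hR
      have u1 := (abs_le.1 hs').2
      have u2 := (abs_le.1 hcon.2).2
      have u3 := hcon.1
      have u4 := alg_low (t := t) hs he he3 hsq r1 r2
      linarith
    linarith

/-- the law of the normalised sum over windows of length `H` at `X` deviates from `Φ` by `η` -/
def DevF (Φ : ℝ → ℝ) (X H η : ℝ) : Prop := ∃ t : ℝ, η ≤ |share X H t - Φ t|

/-- **Failure of the law propagates.** -/
theorem propagate {Φ : ℝ → ℝ} (hc : Continuous Φ) (hm : Monotone Φ) (hb : Tendsto Φ atBot (𝓝 0))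
    (ht : Tendsto Φ atTop (𝓝 1)) {η : ℝ} (hη : 0 < η) :
    ∃ ρ : ℝ, 0 < ρ ∧ ρ ≤ 1 / 2 ∧ ∀ X H h : ℝ, 0 < X → 1 / ρ ≤ H → H ≤ ρ * X → 0 < h → h ≤ ρ * H →
      DevF Φ X H η → DevF Φ X h ρ ∨ DevF Φ X (H - h) ρ := by
  have hΦ0 : ∀ t, 0 ≤ Φ t := fun t => hm.le_of_tendsto hb t
  have hΦ1 : ∀ t, Φ t ≤ 1 := fun t => hm.ge_of_tendsto ht t
  -- the cut-off T
  obtain ⟨T, hT1, hT2, hT0⟩ : ∃ T : ℝ, Φ (-T) < η / 8 ∧ 1 - η / 8 < Φ T ∧ 0 < T := by
    have h1 : ∀ᶠ u in atTop, Φ (-u) < η / 8 :=
      (hb.comp tendsto_neg_atTop_atBot).eventually (gt_mem_nhds (by linarith : (0 : ℝ) < η / 8))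
    have h2 : ∀ᶠ u in atTop, 1 - η / 8 < Φ u := ht.eventually (lt_mem_nhds (by linarith))
    exact (h1.and (h2.and (eventually_gt_atTop 0))).exists
  -- uniform continuity
  obtain ⟨s, hs, hs1, hsu⟩ : ∃ s : ℝ, 0 < s ∧ s ≤ 1 ∧ ∀ t y, |t| ≤ T → |y - t| ≤ s → |Φ y - Φ t| < η / 8 := by
    have hu := isCompact_Icc (a := -(T + 1)) (b := T + 1) |>.uniformContinuousOn_of_continuous hc.continuousOn
    rw [Metric.uniformContinuousOn_iff] at hu
    obtain ⟨s, hs, h'⟩ := hu (η / 8) (by linarith)
    refine ⟨min (s / 2) 1, lt_min (by linarith) one_pos, min_le_right _ _, fun t y h1 h2 => ?_⟩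
    have h3 : |y - t| ≤ s / 2 := h2.trans (min_le_left _ _)
    have h4 : |y - t| ≤ 1 := h2.trans (min_le_right _ _)
    rw [abs_le] at h1 h4
    have := h' y ⟨by linarith, by linarith⟩ t ⟨by linarith, by linarith⟩
      (by rw [Real.dist_eq]; linarith)
    rwa [Real.dist_eq] at this
  set e : ℝ := min (min (1 / 2) (η / 16)) (s / (4 + T + s)) with he_def
  have hden : 0 < 4 + T + s := by positivity
  have he : 0 < e := lt_min (lt_min (by norm_num) (by linarith)) (by positivity)
  have he1 : e ≤ 1 / 2 := le_trans (min_le_left _ _) (min_le_left _ _)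
  have he2 : e ≤ η / 16 := le_trans (min_le_left _ _) (min_le_right _ _)
  have he3 : e * (4 + T + s) ≤ s := by
    have : e ≤ s / (4 + T + s) := min_le_right _ _
    rwa [le_div_iff₀ hden] at this
  obtain ⟨u, hu1, hu2, hu0⟩ : ∃ u : ℝ, Φ (-u) < e / 8 ∧ 1 - e / 8 < Φ u ∧ 0 < u := by
    have h1 : ∀ᶠ u in atTop, Φ (-u) < e / 8 :=
      (hb.comp tendsto_neg_atTop_atBot).eventually (gt_mem_nhds (by linarith : (0 : ℝ) < e / 8))
    have h2 : ∀ᶠ u in atTop, 1 - e / 8 < Φ u := ht.eventually (lt_mem_nhds (by linarith))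
    exact (h1.and (h2.and (eventually_gt_atTop 0))).exists
  set ρ : ℝ := min (e ^ 2 / 4) (e ^ 2 / u ^ 2) with hρ_def
  have hρ : 0 < ρ := lt_min (by positivity) (by positivity)
  have hρ1 : ρ ≤ e ^ 2 / 4 := min_le_left _ _
  have hρ2 : ρ ≤ e ^ 2 / u ^ 2 := min_le_right _ _
  have hρ3 : ρ ≤ e / 8 := by nlinarith
  refine ⟨ρ, hρ, by nlinarith, fun X H h hX hH1 hHX hh hhH hdev => ?_⟩
  by_contra hcon
  rw [not_or] at hcon
  unfold DevF at hcon hdev
  push Not at hcon
  obtain ⟨hd1, hd2⟩ := hcon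
  have hH : 0 < H := lt_of_lt_of_le (by positivity) hH1
  have hHX' : H / X ≤ ρ := by rw [div_le_iff₀ hX]; exact hHX
  -- the tail of the short window
  have htail : P X (fun x => e * √H < |M x h|) ≤ e := by
    have c0 : P X (fun x => e * √H < |M x h|) ≤ P X (fun x => u * (√h / k) < |M x h|) := by
      apply P_mono hX
      intro x _ hx
      refine lt_of_le_of_lt ?_ hx
      have h3 : u * √h ≤ e * √H := by
        have h4 : √(u ^ 2 * h) ≤ √(e ^ 2 * H) := by
          apply Real.sqrt_le_sqrt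
          have h5 : h ≤ e ^ 2 / u ^ 2 * H := hhH.trans (mul_le_mul_of_nonneg_right hρ2 hH.le)
          rw [div_mul_eq_mul_div, le_div_iff₀ (by positivity)] at h5
          linarith
        rw [Real.sqrt_mul (by positivity), Real.sqrt_mul (by positivity), Real.sqrt_sq hu0.le,
          Real.sqrt_sq he.le] at h4
        exact h4
      have h5 : √h / k ≤ √h := div_le_self (Real.sqrt_nonneg _) one_le_k
      nlinarith [Real.sqrt_nonneg h]
    have c1 : P X (fun x => u * (√h / k) < |M x h|) ≤
        P X (fun x => M x h ≤ -u * (√h / k)) + P X (fun x => u * (√h / k) < M x h) := by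
      refine le_trans (P_mono hX ?_) (P_or hX _ _)
      intro x _ hx
      rcases lt_abs.1 hx with h' | h'
      · exact Or.inr h'
      · left; linarith
    have c2 := P_compl (v := u * (√h / k)) hX hh.le
    have c3 := hd1 (-u)
    have c4 := hd1 u
    rw [share_eq hh, abs_lt] at c3 c4
    linarith [c3.2, c4.1]
  have hone : 1 ≤ e * √H := by
    have h6 : 1 / e ≤ √H := by
      apply Real.le_sqrt_of_sq_le
      rw [div_pow, one_pow]
      refine le_trans ?_ hH1
      apply one_div_le_one_div_of_le hρ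
      nlinarith
    rw [div_le_iff₀ he] at h6
    linarith
  have hsum : H - h + h = H := by ring
  have main : ∀ t, |t| ≤ T → |share X H t - Φ t| < η / 2 := by
    intro t htT
    have he3' : e * (4 + |t| + s) ≤ s := by nlinarith
    have hhe : h ≤ e * H := hhH.trans (mul_le_mul_of_nonneg_right (by linarith) hH.le)
    have st := step (X := X) (g := H - h) (R := h) (e := e) (s := s) (t := t) hX he he1 hs he3'
      (by rw [hsum]; exact hH) hh.le (by rw [hsum]; exact hhe) (by rw [hsum]; exact hone)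
      (by rw [hsum]; exact htail)
    rw [hsum] at st
    have f1 := hsu t (t + s) htT (by simp [abs_of_pos hs])
    have f2 := hsu t (t - s) htT (by simp [abs_of_pos hs])
    have g1 := hd2 (t + s)
    have g2 := hd2 (t - s)
    rw [abs_lt] at *
    constructor <;> linarith [st.1, st.2, f1.1, f1.2, f2.1, f2.2, g1.1, g1.2, g2.1, g2.2]
  obtain ⟨t, htd⟩ := hdev
  rcases le_or_gt |t| T with h' | h'
  · linarith [main t h']
  · have m1 := main T (by rw [abs_of_pos hT0])
    have m2 := main (-T) (by rw [abs_neg, abs_of_pos hT0])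
    rw [abs_lt] at m1 m2
    rcases lt_abs.1 h' with h1 | h1
    · have a1 := share_mono (X := X) (H := H) hX h1.le
      have a2 : share X H t ≤ 1 := P_le_one hX _
      have a3 := hm h1.le
      have a4 := hΦ1 t
      have : |share X H t - Φ t| < η := by
        rw [abs_lt]; constructor <;> linarith [m1.1]
      linarith
    · have h1' : t ≤ -T := by linarith
      have a1 := share_mono (X := X) (H := H) hX h1'
      have a2 : 0 ≤ share X H t := P_nonneg hX _
      have a3 := hm h1'
      have a4 := hΦ0 t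
      have : |share X H t - Φ t| < η := by
        rw [abs_lt]; constructor <;> linarith [m2.2]
      linarith

/-- at least half of the lengths in `[δH/2, δH] ∪ [(1-δ)H, (1-δ/2)H]` -/
theorem half_bad {B : Set ℝ} {H δ : ℝ} (hH : 0 < H) (hδ : 0 < δ)
    (h : ∀ y, 0 < y → y ≤ δ * H → y ∈ B ∨ H - y ∈ B) :
    ENNReal.ofReal (δ * H / 2) ≤ volume (B ∩ Icc (δ * H / 2) (δ * H)) +
      volume (B ∩ Icc ((1 - δ) * H) ((1 - δ / 2) * H)) := by
  have hp := mul_pos hδ hH
  have hsub : Icc (δ * H / 2) (δ * H) ⊆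
      (B ∩ Icc (δ * H / 2) (δ * H)) ∪ {y : ℝ | H - y ∈ B ∩ Icc ((1 - δ) * H) ((1 - δ / 2) * H)} := by
    intro y hy
    rcases h y (by linarith [hy.1]) hy.2 with h1 | h1
    · exact Or.inl ⟨h1, hy⟩
    · exact Or.inr ⟨h1, by linarith [hy.2], by linarith [hy.1]⟩
  have hv := (measure_mono (μ := volume) hsub).trans (measure_union_le _ _)
  rw [refl_vol, Real.volume_Icc] at hv
  rwa [show δ * H - δ * H / 2 = δ * H / 2 by ring] at hv

end Pool.Agent.H127.GL
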