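import Pool.Agent.H127.GL.Law

/-!
# Reduction of the law to thin sets of lengths
-/

set_option autoImplicit false

namespace Pool.Agent.H127.GL

open MeasureTheory Filter Topology Set

/-- `X^ε < H(X) < X^(1-ε)` for all large `X` -/
def InRange (ε : ℝ) (H : ℝ → ℝ) : Prop := ∀ᶠ X in atTop, X ^ ε < H X ∧ H X < X ^ (1 - ε)

/-- the law for all the length functions with values in `S` -/
def LawOnF (Φ : ℝ → ℝ) (S : ℝ → Set ℝ) : Prop :=
  ∀ ε : ℝ, 0 < ε → ε < 1 / 2 → ∀ H : ℝ → ℝ, InRange ε H → (∀ᶠ X in atTop, H X ∈ S X) → LawF Φ H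

/-- the gaps of `S` at `y` are at most `y^(1-c)` -/
def Gaps (c : ℝ) (S : ℝ → Set ℝ) : Prop :=
  ∀ ε : ℝ, 0 < ε → ∀ᶠ X : ℝ in atTop, ∀ y : ℝ, X ^ ε ≤ y → y ≤ X →
    ∃ h ∈ S X, y - y ^ (1 - c) ≤ h ∧ h ≤ y

theorem pow_small {κ δ : ℝ} (hκ : κ < 1) (hδ : 0 < δ) : ∀ᶠ y : ℝ in atTop, y ^ κ ≤ δ * y := by
  have h1 : Tendsto (fun y : ℝ => y ^ (-(1 - κ))) atTop (𝓝 0) := tendsto_rpow_neg_atTop (by linarith)
  filter_upwards [h1.eventually (gt_mem_nhds hδ), eventually_gt_atTop 0] with y h2 hy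
  have : y ^ κ = y ^ (-(1 - κ)) * y := by
    rw [show κ = -(1 - κ) + 1 by ring, Real.rpow_add hy, Real.rpow_one]
    congr 2; ring
  rw [this]
  exact mul_le_mul_of_nonneg_right h2.le hy.le

theorem InRange.tendsto {ε : ℝ} (hε : 0 < ε) {H : ℝ → ℝ} (h : InRange ε H) : Tendsto H atTop atTop :=
  tendsto_atTop_mono' _ (h.mono fun _ hX => hX.1.le) (tendsto_rpow_atTop hε)

theorem InRange.div {ε : ℝ} (hε : 0 < ε) {H : ℝ → ℝ} (h : InRange ε H) :
    Tendsto (fun X => H X / X) atTop (𝓝 0) := by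
  have h1 : Tendsto (fun y : ℝ => y ^ (-ε)) atTop (𝓝 0) := tendsto_rpow_neg_atTop hε
  apply squeeze_zero' _ _ h1
  · filter_upwards [h, eventually_gt_atTop 0] with X hX hX0
    have : 0 < X ^ ε := Real.rpow_pos_of_pos hX0 _
    have : 0 < H X := by linarith [hX.1]
    positivity
  · filter_upwards [h, eventually_gt_atTop 0] with X hX hX0
    rw [div_le_iff₀ hX0]
    have : X ^ (1 - ε) = X ^ (-ε) * X := by
      rw [show (1 - ε) = -ε + 1 by ring, Real.rpow_add hX0, Real.rpow_one]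
    rw [← this]
    exact hX.2.le

/-- the lower end of the range -/
theorem half_range {ε : ℝ} (hε : 0 < ε) {b : ℝ} (hb : 0 < b) :
    ∀ᶠ X : ℝ in atTop, X ^ (ε / 2) < b * X ^ ε := by
  have h := (tendsto_rpow_atTop hε).eventually (pow_small (κ := 1 / 2) (δ := b / 2) (by norm_num) (by linarith))
  filter_upwards [h, eventually_gt_atTop 0] with X h1 hX
  rw [← Real.rpow_mul hX.le] at h1
  have : 0 < X ^ ε := Real.rpow_pos_of_pos hX _
  rw [show ε * (1 / 2) = ε / 2 by ring] at h1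
  nlinarith

/-- **Windows of length at most `H^κ`, `κ < 1`, are negligible if the law holds for the lengths in `S`.** -/
theorem small_ind {Φ : ℝ → ℝ} (hb : Tendsto Φ atBot (𝓝 0)) (ht : Tendsto Φ atTop (𝓝 1))
    {S : ℝ → Set ℝ} {c : ℝ} (hc0 : 0 < c) (hc1 : c < 1) (hS : Gaps c S) (hL : LawOnF Φ S) {ε : ℝ}
    (hε : 0 < ε) (hε1 : ε < 1 / 2) {H : ℝ → ℝ} (hH : InRange ε H) :
    ∀ n : ℕ, ∀ κ : ℝ, κ < 1 → κ * (1 - c) ^ n ≤ 1 / 4 → ∀ R : ℝ → ℝ,
      (∀ᶠ X in atTop, 0 ≤ R X ∧ R X ≤ H X ^ κ) → ∀ e : ℝ, 0 < e → Small H R e := by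
  have hHt := hH.tendsto hε
  have hH1 := hHt.eventually (eventually_ge_atTop 1)
  -- short windows
  have hshort : ∀ e : ℝ, 0 < e → ∀ᶠ X in atTop, H X ^ (1 / 4 : ℝ) + 1 ≤ e * √(H X) := by
    intro e he
    have h1 : ∀ᶠ y : ℝ in atTop, (2 / e) ^ 4 ≤ y ∧ 1 ≤ y :=
      (eventually_ge_atTop _).and (eventually_ge_atTop 1)
    filter_upwards [hHt.eventually h1] with X hX
    obtain ⟨h2, h3⟩ := hX
    have h4 : 2 / e ≤ H X ^ (1 / 4 : ℝ) := by
      have h5 := Real.rpow_le_rpow (by positivity) h2 (by norm_num : (0 : ℝ) ≤ 1 / 4)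
      have h6 : ((2 / e) ^ 4) ^ (1 / 4 : ℝ) = 2 / e := by
        rw [← Real.rpow_natCast, ← Real.rpow_mul (by positivity)]; norm_num
      rwa [h6] at h5
    have h7 : (1 : ℝ) ≤ H X ^ (1 / 4 : ℝ) := Real.one_le_rpow h3 (by norm_num)
    have h8 : √(H X) = H X ^ (1 / 4 : ℝ) * H X ^ (1 / 4 : ℝ) := by
      rw [Real.sqrt_eq_rpow, ← Real.rpow_add (by linarith)]; norm_num
    rw [h8]
    rw [div_le_iff₀ he] at h4
    nlinarith
  intro n
  induction n with
  | zero =>
    intro κ hκ hκn R hR e he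
    rw [pow_zero, mul_one] at hκn
    apply small_of_short he
    filter_upwards [hR, hshort e he, hH1] with X h1 h2 h3
    refine ⟨h1.1, ?_⟩
    have := Real.rpow_le_rpow_of_exponent_le h3 hκn
    linarith [h1.2]
  | succ n ih =>
    intro κ hκ hκn R hR e he
    set κ2 : ℝ := max κ (1 / 4) with hκ2
    have hκ21 : κ2 < 1 := max_lt hκ (by norm_num)
    have hκ20 : 1 / 4 ≤ κ2 := le_max_right _ _
    set g : ℝ → ℝ := fun X => max (R X) (H X ^ (1 / 4 : ℝ)) with hg
    have hq0 : 0 < (1 - c) ^ (n + 1) := pow_pos (by linarith) _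
    have hq1 : (1 - c) ^ (n + 1) ≤ 1 := pow_le_one₀ (by linarith) (by linarith)
    -- bounds for g
    have hgu : ∀ᶠ X in atTop, g X ≤ H X ^ κ2 := by
      filter_upwards [hR, hH1] with X h1 h2
      apply max_le
      · exact le_trans h1.2 (Real.rpow_le_rpow_of_exponent_le h2 (le_max_left _ _))
      · exact Real.rpow_le_rpow_of_exponent_le h2 hκ20
    have hgl : ∀ᶠ X in atTop, X ^ (ε / 4) ≤ g X := by
      filter_upwards [hH, eventually_gt_atTop 0] with X h1 hX
      refine le_trans ?_ (le_max_right _ _)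
      have h2 := Real.rpow_le_rpow (by positivity) h1.1.le (by norm_num : (0 : ℝ) ≤ 1 / 4)
      rwa [← Real.rpow_mul hX.le, show ε * (1 / 4) = ε / 4 by ring] at h2
    have hgH : ∀ᶠ X in atTop, g X ≤ H X := by
      filter_upwards [hgu, hH1] with X h1 h2
      refine le_trans h1 ?_
      have := Real.rpow_le_rpow_of_exponent_le h2 hκ21.le
      rwa [Real.rpow_one] at this
    have hHX : ∀ᶠ X in atTop, H X ≤ X := by
      filter_upwards [hH, eventually_ge_atTop 1] with X h1 hX
      refine le_trans h1.2.le ?_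
      have := Real.rpow_le_rpow_of_exponent_le hX (show 1 - ε ≤ 1 by linarith)
      rwa [Real.rpow_one] at this
    have hgt : Tendsto g atTop atTop :=
      tendsto_atTop_mono' _ hgl (tendsto_rpow_atTop (by linarith))
    obtain ⟨h, hh⟩ : ∃ h : ℝ → ℝ, ∀ᶠ X in atTop,
        h X ∈ S X ∧ g X - g X ^ (1 - c) ≤ h X ∧ h X ≤ g X := by
      refine Filter.Eventually.choice (r := fun X y => y ∈ S X ∧ g X - g X ^ (1 - c) ≤ y ∧ y ≤ g X) ?_
      filter_upwards [hS (ε / 4) (by linarith), hgl, hgH, hHX] with X h1 h2 h3 h4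
      exact h1 (g X) h2 (h3.trans h4)
    have hhalf : ∀ᶠ X in atTop, g X / 2 ≤ h X := by
      filter_upwards [hh, hgt.eventually (pow_small (κ := 1 - c) (δ := 1 / 2) (by linarith) (by norm_num))]
        with X h1 h2
      linarith [h1.2.1]
    have hrange : InRange (ε / 8) h := by
      have h1 := half_range (ε := ε / 4) (by linarith) (b := 1 / 2) (by norm_num)
      filter_upwards [hhalf, hgl, h1, hh, hgH, hH, eventually_ge_atTop 1] with X a1 a2 a3 a4 a5 a6 a7
      constructor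
      · rw [show ε / 8 = ε / 4 / 2 by ring]; linarith
      · refine lt_of_le_of_lt (a4.2.2.trans a5) (lt_of_lt_of_le a6.2 ?_)
        exact Real.rpow_le_rpow_of_exponent_le a7 (by linarith)
    have hlaw : LawF Φ h := hL (ε / 8) (by linarith) (by linarith) h hrange (hh.mono fun _ hX => hX.1)
    obtain ⟨δ, hδ, hsm⟩ := small_of_law hb ht (show 0 < e / 4 by linarith)
    have hs1 : Small H h (e / 4) := by
      apply hsm H h hlaw
      filter_upwards [hhalf, hgt.eventually (eventually_gt_atTop 0), hh, hgu,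
        hHt.eventually (pow_small hκ21 hδ)] with X a1 a2 a3 a4 a5
      exact ⟨by linarith, le_trans a3.2.2 (le_trans a4 a5)⟩
    have hs2 : Small H (fun X => g X - h X) (e / 4) := by
      apply ih (κ2 * (1 - c)) _ _ _ _ _ (by linarith)
      · nlinarith
      · have e1 : κ2 * (1 - c) * (1 - c) ^ n = κ2 * (1 - c) ^ (n + 1) := by rw [pow_succ]; ring
        rw [e1]
        rcases max_choice κ (1 / 4 : ℝ) with h' | h'
        · rw [hκ2, h']; exact hκn
        · rw [hκ2, h']; linarith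
      · filter_upwards [hh, hgu, hgt.eventually (eventually_ge_atTop 0), hH1] with X a1 a2 a3 a4
        refine ⟨by linarith [a1.2.2], ?_⟩
        have h2 := Real.rpow_le_rpow a3 a2 (by linarith : (0 : ℝ) ≤ 1 - c)
        rw [← Real.rpow_mul (by linarith)] at h2
        linarith [a1.2.1]
    have hs3 : Small H g e := by
      have := small_add (H := H) (R₁ := h) (R₂ := fun X => g X - h X) (e := e) hs1 hs2 ?_
      · have e1 : (fun X => h X + (g X - h X)) = g := by funext X; ring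
        rwa [e1] at this
      · have hd := hH.div hε
        filter_upwards [hh, hhalf, hgt.eventually (eventually_ge_atTop 0), hgH,
          hd.eventually (gt_mem_nhds (by linarith : (0 : ℝ) < e / 2)),
          hHt.eventually (eventually_ge_atTop (4 ^ 2 / e ^ 2)), eventually_gt_atTop 0]
          with X a1 a2 a3 a4 a5 a6 a7
        rw [div_lt_iff₀ a7] at a5
        refine ⟨by linarith, by linarith [a1.2.2], by linarith, ?_⟩
        have h6 : 4 / e ≤ √(H X) := by
          apply Real.le_sqrt_of_sq_le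
          rw [div_pow]; exact a6
        rw [div_le_iff₀ he] at h6
        linarith
    unfold Small at hs3 ⊢
    filter_upwards [hs3, hR, hshort e he, eventually_gt_atTop 0] with X a1 a2 a3 hX
    rcases le_or_gt (H X ^ (1 / 4 : ℝ)) (R X) with h' | h'
    · have : g X = R X := max_eq_left h'
      rwa [this] at a1
    · rw [P_false]
      · exact he.le
      · intro x _ hx
        have := M_abs (x := x) a2.1
        linarith

/-- **The law follows from the law for the lengths in a set with small gaps.** -/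
theorem law_of_gaps {Φ : ℝ → ℝ} (hcont : Continuous Φ) (hb : Tendsto Φ atBot (𝓝 0))
    (ht : Tendsto Φ atTop (𝓝 1)) {S : ℝ → Set ℝ} {c : ℝ} (hc0 : 0 < c) (hc1 : c < 1) (hS : Gaps c S)
    (hL : LawOnF Φ S) : LawOnF Φ (fun _ => univ) := by
  intro ε hε hε1 H hH _
  have hHt := hH.tendsto hε
  have hH1 := hHt.eventually (eventually_ge_atTop 1)
  have hHX : ∀ᶠ X in atTop, H X ≤ X := by
    filter_upwards [hH, eventually_ge_atTop 1] with X h1 hX
    refine le_trans h1.2.le ?_
    have := Real.rpow_le_rpow_of_exponent_le hX (show 1 - ε ≤ 1 by linarith)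
    rwa [Real.rpow_one] at this
  obtain ⟨h, hh⟩ : ∃ h : ℝ → ℝ, ∀ᶠ X in atTop,
      h X ∈ S X ∧ H X - H X ^ (1 - c) ≤ h X ∧ h X ≤ H X := by
    refine Filter.Eventually.choice (r := fun X y => y ∈ S X ∧ H X - H X ^ (1 - c) ≤ y ∧ y ≤ H X) ?_
    filter_upwards [hS ε hε, hH, hHX] with X h1 h2 h3
    exact h1 (H X) h2.1.le h3
  have hrange : InRange (ε / 2) h := by
    filter_upwards [hh, hHt.eventually (pow_small (κ := 1 - c) (δ := 1 / 2) (by linarith) (by norm_num)),
      half_range hε (b := 1 / 2) (by norm_num), hH, eventually_ge_atTop 1] with X a1 a2 a3 a4 a5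
    constructor
    · linarith [a1.2.1, a4.1]
    · refine lt_of_le_of_lt a1.2.2 (lt_of_lt_of_le a4.2 ?_)
      exact Real.rpow_le_rpow_of_exponent_le a5 (by linarith)
  have hlaw : LawF Φ h := hL (ε / 2) (by linarith) (by linarith) h hrange (hh.mono fun _ hX => hX.1)
  obtain ⟨n, hn⟩ := exists_pow_lt_of_lt_one (show (0 : ℝ) < 1 / 4 by norm_num) (show 1 - c < 1 by linarith)
  refine law_of_split hcont hHt (hH.div hε) fun e he => ⟨h, fun X => H X - h X, hlaw, ?_, ?_⟩
  · filter_upwards [hh, hHt.eventually (pow_small (κ := 1 - c) (δ := e) (by linarith) he)] with X a1 a2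
    refine ⟨by ring, by linarith [a1.2.2], by linarith [a1.2.1]⟩
  · apply small_ind hb ht hc0 hc1 hS hL hε hε1 hH n (1 - c) (by linarith) _ _ _ e he
    · have h0 : 0 < (1 - c) ^ n := pow_pos (by linarith) _
      nlinarith
    · filter_upwards [hh] with X a1
      exact ⟨by linarith [a1.2.2], by linarith [a1.2.1]⟩

/-- for each fixed `δ ∈ (0, 1)` the sets `E X` fill at most the proportion `θ` of each of the intervals
`[y - δ y, y]`, `X^ε ≤ y ≤ X`, `X` large -/
def Sparse (θ : ℝ) (E : ℝ → Set ℝ) : Prop :=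
  ∀ ε : ℝ, 0 < ε → ∀ δ : ℝ, 0 < δ → δ < 1 → ∀ᶠ X : ℝ in atTop, ∀ y : ℝ, X ^ ε ≤ y → y ≤ X →
    volume (E X ∩ Icc (y - δ * y) y) ≤ ENNReal.ofReal (θ * (δ * y))

theorem refl_vol (A : Set ℝ) (H : ℝ) : volume {y : ℝ | H - y ∈ A} = volume A := by
  have h1 : {y : ℝ | H - y ∈ A} = Neg.neg ⁻¹' ((fun y => y + H) ⁻¹' A) := by
    ext y
    show H - y ∈ A ↔ -y + H ∈ A
    rw [show H - y = -y + H by ring]
  rw [h1, Measure.measure_preimage_neg, measure_preimage_add_right]

/-- **The law follows from the law for more than half of the lengths.** -/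
theorem law_of_sparse {Φ : ℝ → ℝ} (hcont : Continuous Φ) (hb : Tendsto Φ atBot (𝓝 0))
    (ht : Tendsto Φ atTop (𝓝 1)) {E : ℝ → Set ℝ} {θ : ℝ} (hθ0 : 0 ≤ θ) (hθ : θ < 1 / 2) (hE : Sparse θ E)
    (hL : LawOnF Φ (fun X => (E X)ᶜ)) : LawOnF Φ (fun _ => univ) := by
  intro ε hε hε1 H hH _
  have hHt := hH.tendsto hε
  have hHX : ∀ᶠ X in atTop, H X ≤ X := by
    filter_upwards [hH, eventually_ge_atTop 1] with X h1 hX
    refine le_trans h1.2.le ?_
    have := Real.rpow_le_rpow_of_exponent_le hX (show 1 - ε ≤ 1 by linarith)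
    rwa [Real.rpow_one] at this
  refine law_of_split hcont hHt (hH.div hε) fun e he => ?_
  obtain ⟨δ₀, hδ₀, hsm⟩ := small_of_law hb ht he
  set δ : ℝ := min δ₀ (min e (1 / 2)) with hδ_def
  have hδ : 0 < δ := lt_min hδ₀ (lt_min he (by norm_num))
  have hd1 : δ ≤ δ₀ := min_le_left _ _
  have hd2 : δ ≤ e := le_trans (min_le_right _ _) (min_le_left _ _)
  have hd3 : δ ≤ 1 / 2 := le_trans (min_le_right _ _) (min_le_right _ _)
  obtain ⟨h, hh⟩ : ∃ h : ℝ → ℝ, ∀ᶠ X in atTop,
      (δ * H X / 2 ≤ h X ∧ h X ≤ δ * H X) ∧ h X ∉ E X ∧ H X - h X ∉ E X := by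
    refine Filter.Eventually.choice
      (r := fun X y => (δ * H X / 2 ≤ y ∧ y ≤ δ * H X) ∧ y ∉ E X ∧ H X - y ∉ E X) ?_
    have hδ2 : 0 < δ / (2 - δ) := div_pos hδ (by linarith)
    have hδ2' : δ / (2 - δ) < 1 := by rw [div_lt_one (by linarith)]; linarith
    filter_upwards [hE (ε / 2) (by linarith) (1 / 2) (by norm_num) (by norm_num),
      hE (ε / 2) (by linarith) (δ / (2 - δ)) hδ2 hδ2', hH, hHX,
      half_range hε hδ, hHt.eventually (eventually_gt_atTop 0), eventually_ge_atTop 1]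
      with X a0 a1 a2 a3 a4 a5 a6
    by_contra hcon
    have hXe : 0 < X ^ ε := Real.rpow_pos_of_pos (by linarith) _
    have hp := mul_pos hδ a5
    have y1 : X ^ (ε / 2) ≤ δ * H X := by
      have := mul_le_mul_of_nonneg_left a2.1.le hδ.le
      linarith
    have y1' : δ * H X ≤ X := by nlinarith
    have y2 : X ^ (ε / 2) ≤ (1 - δ / 2) * H X := by nlinarith
    have y2' : (1 - δ / 2) * H X ≤ X := by nlinarith
    have b1 := a0 (δ * H X) y1 y1'
    have b2 := a1 ((1 - δ / 2) * H X) y2 y2'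
    have e1 : δ / (2 - δ) * ((1 - δ / 2) * H X) = δ / 2 * H X := by
      have : (2 - δ) ≠ 0 := by linarith
      field_simp
    rw [e1] at b2
    have hsub : Icc (δ * H X - 1 / 2 * (δ * H X)) (δ * H X) ⊆
        (E X ∩ Icc (δ * H X - 1 / 2 * (δ * H X)) (δ * H X)) ∪
          {y : ℝ | H X - y ∈ E X ∩ Icc ((1 - δ / 2) * H X - δ / 2 * H X) ((1 - δ / 2) * H X)} := by
      intro y hy
      by_cases hy1 : y ∈ E X
      · exact Or.inl ⟨hy1, hy⟩
      · right
        have t1 := hy.1
        have t2 := hy.2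
        refine ⟨?_, ?_⟩
        · by_contra hy2
          exact hcon ⟨y, ⟨by linarith, hy.2⟩, hy1, hy2⟩
        · constructor
          · linarith
          · linarith
    have hv := (measure_mono (μ := volume) hsub).trans (measure_union_le _ _)
    rw [refl_vol, Real.volume_Icc] at hv
    have hv2 := hv.trans (add_le_add b1 b2)
    rw [← ENNReal.ofReal_add (by positivity) (by positivity),
      ENNReal.ofReal_le_ofReal_iff (by positivity)] at hv2
    nlinarith
  have hrh : InRange (ε / 2) h := by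
    filter_upwards [hh, half_range hε (b := δ / 2) (by linarith), hH,
      hHt.eventually (eventually_gt_atTop 0), eventually_ge_atTop 1] with X a1 a2 a3 a4 a5
    constructor
    · have := mul_le_mul_of_nonneg_left a3.1.le (by linarith : 0 ≤ δ / 2)
      linarith [a1.1.1]
    · have : h X ≤ H X := by nlinarith [a1.1.2]
      exact lt_of_le_of_lt this (lt_of_lt_of_le a3.2 (Real.rpow_le_rpow_of_exponent_le a5 (by linarith)))
  have hrg : InRange (ε / 2) (fun X => H X - h X) := by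
    filter_upwards [hh, half_range hε (b := 1 / 2) (by norm_num), hH,
      hHt.eventually (eventually_gt_atTop 0), eventually_ge_atTop 1] with X a1 a2 a3 a4 a5
    constructor
    · have : H X / 2 ≤ H X - h X := by nlinarith [a1.1.2]
      linarith [a3.1]
    · have : H X - h X ≤ H X := by nlinarith [a1.1.1, mul_pos hδ a4]
      exact lt_of_le_of_lt this (lt_of_lt_of_le a3.2 (Real.rpow_le_rpow_of_exponent_le a5 (by linarith)))
  have hlh : LawF Φ h := hL (ε / 2) (by linarith) (by linarith) h hrh (hh.mono fun _ hX => hX.2.1)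
  have hlg : LawF Φ (fun X => H X - h X) :=
    hL (ε / 2) (by linarith) (by linarith) _ hrg (hh.mono fun _ hX => hX.2.2)
  refine ⟨fun X => H X - h X, h, hlg, ?_, ?_⟩
  · filter_upwards [hh, hHt.eventually (eventually_gt_atTop 0)] with X a1 a2
    refine ⟨by ring, ?_, ?_⟩
    · nlinarith [a1.1.1, mul_pos hδ a2]
    · nlinarith [a1.1.2]
  · apply hsm H h hlh
    filter_upwards [hh, hHt.eventually (eventually_gt_atTop 0)] with X a1 a2
    constructor
    · nlinarith [a1.1.1, mul_pos hδ a2]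
    · nlinarith [a1.1.2]

end Pool.Agent.H127.GL
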