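import Pool.Agent.H127.GL.Reduce

/-!
# Sets of lengths with small gaps
-/

set_option autoImplicit false

namespace Pool.Agent.H127.GL

open MeasureTheory Filter Topology Set ProbabilityTheory

theorem gaps_mono {c c' : ℝ} (hcc : c' ≤ c) {S : ℝ → Set ℝ} (hS : Gaps c S) : Gaps c' S := by
  intro ε hε
  filter_upwards [hS ε hε, eventually_ge_atTop 1] with X h hX y hy1 hy2
  obtain ⟨a, ha, h1, h2⟩ := h y hy1 hy2
  refine ⟨a, ha, ?_, h2⟩
  have hy : 1 ≤ y := le_trans (Real.one_le_rpow hX hε.le) hy1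
  have := Real.rpow_le_rpow_of_exponent_le hy (show 1 - c ≤ 1 - c' by linarith)
  linarith

/-- perfect powers -/
theorem gaps_pow {m : ℕ} (hm : 1 ≤ m) :
    Gaps (1 / (2 * (m : ℝ))) (fun _ => {y : ℝ | ∃ j : ℕ, y = (j : ℝ) ^ m}) := by
  intro ε hε
  have hm0 : (0 : ℝ) < m := by exact_mod_cast hm
  filter_upwards [(tendsto_rpow_atTop hε).eventually (eventually_ge_atTop ((m : ℝ) ^ (2 * m))),
    (tendsto_rpow_atTop hε).eventually (eventually_ge_atTop 1)] with X hX1 hX2 y hy1 hy2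
  have hy : 1 ≤ y := hX2.trans hy1
  have hy0 : 0 < y := by linarith
  set z : ℝ := y ^ (1 / (m : ℝ)) with hz
  have hz1 : 1 ≤ z := Real.one_le_rpow hy (by positivity)
  have hz0 : 0 < z := by linarith
  have hzm : z ^ m = y := by
    rw [hz, ← Real.rpow_natCast, ← Real.rpow_mul hy0.le, one_div_mul_cancel hm0.ne', Real.rpow_one]
  refine ⟨((⌊z⌋₊ : ℕ) : ℝ) ^ m, ⟨⌊z⌋₊, rfl⟩, ?_, ?_⟩
  · have h1 : z - 1 ≤ (⌊z⌋₊ : ℝ) := (Nat.sub_one_lt_floor z).le
    have h2 : (z - 1) ^ m ≤ ((⌊z⌋₊ : ℕ) : ℝ) ^ m := pow_le_pow_left₀ (by linarith) h1 m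
    have h3 : 1 + (m : ℝ) * (-(1 / z)) ≤ (1 + -(1 / z)) ^ m := by
      apply one_add_mul_le_pow
      have : 1 / z ≤ 1 := by rw [div_le_one hz0]; exact hz1
      linarith
    have h4 : (z - 1) ^ m = y * (1 + -(1 / z)) ^ m := by
      rw [← hzm, ← mul_pow]; congr 1; field_simp; ring
    have h5 : y * (1 + (m : ℝ) * (-(1 / z))) ≤ (z - 1) ^ m := by
      rw [h4]; exact mul_le_mul_of_nonneg_left h3 hy0.le
    have h6 : (m : ℝ) ≤ y ^ (1 / (2 * (m : ℝ))) := by
      have h7 : ((m : ℝ) ^ (2 * m)) ^ (1 / (2 * (m : ℝ))) ≤ y ^ (1 / (2 * (m : ℝ))) :=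
        Real.rpow_le_rpow (by positivity) (hX1.trans hy1) (by positivity)
      have h8 : ((m : ℝ) ^ (2 * m)) ^ (1 / (2 * (m : ℝ))) = m := by
        rw [← Real.rpow_natCast, ← Real.rpow_mul hm0.le]
        push_cast
        rw [mul_one_div_cancel (by positivity), Real.rpow_one]
      rwa [h8] at h7
    have h9 : y ^ (1 - 1 / (2 * (m : ℝ))) * z = y * y ^ (1 / (2 * (m : ℝ))) := by
      rw [hz, ← Real.rpow_add hy0]
      nth_rw 2 [← Real.rpow_one y]
      rw [← Real.rpow_add hy0]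
      congr 1
      field_simp
      ring
    have h10 : y * ((m : ℝ) * (1 / z)) ≤ y ^ (1 - 1 / (2 * (m : ℝ))) := by
      rw [show y * ((m : ℝ) * (1 / z)) = y * m / z by ring, div_le_iff₀ hz0, h9]
      exact mul_le_mul_of_nonneg_left h6 hy0.le
    linarith
  · have h1 : (⌊z⌋₊ : ℝ) ≤ z := Nat.floor_le hz0.le
    have := pow_le_pow_left₀ (by positivity) h1 m
    rwa [hzm] at this

/-- at most `X^κ log X + 1` lengths -/
def few (κ : ℝ) (X : ℝ) : Set ℝ :=
  {y : ℝ | ∃ j : ℕ, (j : ℝ) ≤ X ^ κ * Real.log X ∧ y = Real.exp (j * X ^ (-κ))}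

theorem gaps_few {κ : ℝ} (hκ : 0 < κ) : Gaps κ (few κ) := by
  intro ε hε
  filter_upwards [eventually_ge_atTop 1, (tendsto_rpow_atTop hε).eventually (eventually_ge_atTop 1)]
    with X hX hX2 y hy1 hy2
  have hy : 1 ≤ y := hX2.trans hy1
  have hy0 : 0 < y := by linarith
  have hX0 : 0 < X := by linarith
  have hlog : 0 ≤ Real.log y := Real.log_nonneg hy
  have hp : 0 < X ^ κ := Real.rpow_pos_of_pos hX0 _
  have hn : 0 < X ^ (-κ) := Real.rpow_pos_of_pos hX0 _
  have hpn : X ^ κ * X ^ (-κ) = 1 := by rw [← Real.rpow_add hX0]; simp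
  set j : ℕ := ⌊X ^ κ * Real.log y⌋₊ with hj
  have hj1 : (j : ℝ) ≤ X ^ κ * Real.log y := Nat.floor_le (by positivity)
  have hj2 : X ^ κ * Real.log y - 1 < j := Nat.sub_one_lt_floor _
  have e1 : X ^ κ * Real.log y * X ^ (-κ) = Real.log y := by
    rw [mul_right_comm, hpn, one_mul]
  refine ⟨Real.exp (j * X ^ (-κ)), ⟨j, ?_, rfl⟩, ?_, ?_⟩
  · exact hj1.trans (mul_le_mul_of_nonneg_left (Real.log_le_log hy0 hy2) hp.le)
  · have h1 : Real.log y - X ^ (-κ) ≤ j * X ^ (-κ) := by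
      have := mul_lt_mul_of_pos_right hj2 hn
      rw [sub_mul, e1, one_mul] at this
      exact this.le
    have h2 : y * (1 - X ^ (-κ)) ≤ Real.exp (j * X ^ (-κ)) := by
      refine le_trans ?_ (Real.exp_le_exp.2 h1)
      rw [Real.exp_sub, Real.exp_log hy0, div_eq_mul_inv, ← Real.exp_neg]
      apply mul_le_mul_of_nonneg_left _ hy0.le
      have := Real.add_one_le_exp (-X ^ (-κ))
      linarith
    have h3 : y * X ^ (-κ) ≤ y ^ (1 - κ) := by
      have h4 : X ^ (-κ) ≤ y ^ (-κ) := Real.rpow_le_rpow_of_nonpos hy0 hy2 (by linarith)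
      have h5 : y ^ (1 - κ) = y * y ^ (-κ) := by
        rw [sub_eq_add_neg, Real.rpow_add hy0, Real.rpow_one]
      rw [h5]
      exact mul_le_mul_of_nonneg_left h4 hy0.le
    linarith
  · have h1 : (j : ℝ) * X ^ (-κ) ≤ Real.log y := by
      have := mul_le_mul_of_nonneg_right hj1 hn.le
      rwa [e1] at this
    have := Real.exp_le_exp.2 h1
    rwa [Real.exp_log hy0] at this

theorem few_card {κ : ℝ} (hκ : 0 < κ) :
    ∀ᶠ X : ℝ in atTop, (few κ X).Finite ∧ ((few κ X).ncard : ℝ) ≤ X ^ (2 * κ) := by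
  have h1 := (isLittleO_log_rpow_atTop (show 0 < κ / 2 by linarith)).bound (c := 1) (by norm_num)
  filter_upwards [h1, eventually_ge_atTop 1,
    (tendsto_rpow_atTop (show 0 < κ / 2 by linarith)).eventually (eventually_ge_atTop 2)] with X h2 hX h3
  have hX0 : 0 < X := by linarith
  have hlog : 0 ≤ Real.log X := Real.log_nonneg hX
  have hp : 0 < X ^ κ := Real.rpow_pos_of_pos hX0 _
  rw [Real.norm_of_nonneg hlog, one_mul, Real.norm_of_nonneg (by positivity)] at h2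
  set N : ℕ := ⌊X ^ κ * Real.log X⌋₊ with hN
  have hsub : few κ X ⊆ ((Finset.range (N + 1)).image (fun j : ℕ => Real.exp (j * X ^ (-κ))) : Finset ℝ) := by
    rintro y ⟨j, hj, rfl⟩
    rw [Finset.coe_image]
    refine ⟨j, ?_, rfl⟩
    rw [Finset.coe_range, mem_Iio]
    have := Nat.le_floor hj
    omega
  have hfin : (few κ X).Finite := (Finset.finite_toSet _).subset hsub
  refine ⟨hfin, ?_⟩
  have hc : (few κ X).ncard ≤ N + 1 := by
    refine le_trans (Set.ncard_le_ncard hsub (Finset.finite_toSet _)) ?_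
    rw [Set.ncard_coe_finset]
    refine le_trans Finset.card_image_le ?_
    rw [Finset.card_range]
  have hc' : ((few κ X).ncard : ℝ) ≤ X ^ κ * Real.log X + 1 := by
    have : ((few κ X).ncard : ℝ) ≤ (N : ℝ) + 1 := by exact_mod_cast hc
    have := Nat.floor_le (show 0 ≤ X ^ κ * Real.log X by positivity)
    linarith
  refine hc'.trans ?_
  have e1 : X ^ (2 * κ) = X ^ κ * X ^ (κ / 2) * X ^ (κ / 2) := by
    rw [← Real.rpow_add hX0, ← Real.rpow_add hX0]; congr 1; ring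
  rw [e1]
  have h4 : X ^ κ * Real.log X ≤ X ^ κ * X ^ (κ / 2) := mul_le_mul_of_nonneg_left h2 hp.le
  have h5 : 1 ≤ X ^ κ := Real.one_le_rpow hX hκ.le
  have h6 : 1 ≤ X ^ κ * X ^ (κ / 2) := by nlinarith
  nlinarith

theorem continuous_cdf (m : Measure ℝ) [IsProbabilityMeasure m] (hm : ∀ t, m {t} = 0) :
    Continuous (cdf m) := by
  rw [continuous_iff_continuousAt]
  intro t
  rw [continuousAt_iff_continuous_left'_right']
  have hr : ContinuousWithinAt (cdf m) (Ioi t) t := (cdf m).right_continuous t |>.mono Ioi_subset_Ici_self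
  refine ⟨?_, hr⟩
  have h1 := (cdf m).measure_singleton t
  rw [measure_cdf, hm t] at h1
  have h2 : cdf m t ≤ Function.leftLim (cdf m) t := by
    have := ENNReal.ofReal_eq_zero.1 h1.symm
    linarith
  have h3 : Function.leftLim (cdf m) t = cdf m t :=
    le_antisymm ((cdf m).mono.leftLim_le le_rfl) h2
  have h4 := (cdf m).mono.tendsto_leftLim t
  rw [h3] at h4
  exact h4

end Pool.Agent.H127.GL
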